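import Pool.Agent.R812.TC.Asm3
import Pool.Agent.R812.TC.CAP
import Pool.Agent.R812.TC.COND
import Pool.Agent.R812.TC.COVER
import Pool.Agent.R812.TC.DESIGN
import Pool.Agent.R812.TC.DIR
import Pool.Agent.R812.TC.EN
import Pool.Agent.R812.TC.EXIST
import Pool.Agent.R812.TC.LINE
import Pool.Agent.R812.TC.LINK
import Pool.Agent.R812.TC.MEAS
import Pool.Agent.R812.TC.NB
import Pool.Agent.R812.TC.NUM
import Pool.Agent.R812.TC.PATH
import Pool.Agent.R812.TC.TIME
import Pool.Agent.R812.TC.TRANS1
import Pool.Agent.R812.TC.TRANS2
import Pool.Agent.R812.TC.TRANS3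

/-! MP_e14847_pr, Q1: the statement is false. There is a reversible, transient, nearest-neighbour
Markov chain on the square lattice with transition probabilities bounded below by a positive
constant on every edge, which crosses every edge (in both directions) with positive probability. -/

namespace Pool.Agent.Results.MP_e14847_pr.TransientCrossesAll

open MeasureTheory

/-- x and y are neighbours in the square lattice -/
def Nbr (x y : ℤ × ℤ) : Prop := |x.1 - y.1| + |x.2 - y.2| = 1

/-- X is a Markov chain on the square lattice with transition probabilities p, started at x0: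
the finite dimensional distributions are given by the path formula -/
def IsMarkovChain {Ω : Type} [MeasurableSpace Ω] (μ : Measure Ω) (X : ℕ → Ω → ℤ × ℤ)
    (p : ℤ × ℤ → ℤ × ℤ → ℝ) (x0 : ℤ × ℤ) : Prop :=
  (∀ k, Measurable (X k)) ∧
  ∀ (k : ℕ) (x : ℕ → ℤ × ℤ), μ {ω | ∀ i ≤ k, X i ω = x i} =
    if x 0 = x0 then ENNReal.ofReal (∏ i ∈ Finset.range k, p (x i) (x (i + 1))) else 0

/-- There is a Markov kernel p on the square lattice, supported on the edges, bounded below by
a positive constant on all edges, reversible, such that chains with kernel p exist from every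
starting point, and every such chain visits every state only finitely often almost surely
(transience) and crosses every edge, in both directions, with positive probability. -/
theorem result :
    ∃ p : ℤ × ℤ → ℤ × ℤ → ℝ,
      (∀ x y, 0 ≤ p x y) ∧ (∀ x, HasSum (p x) 1) ∧ (∀ x y, p x y ≠ 0 → Nbr x y) ∧
      (∃ c : ℝ, 0 < c ∧ ∀ x y, Nbr x y → c ≤ p x y) ∧
      (∃ w : ℤ × ℤ → ℝ, (∀ x, 0 < w x) ∧ ∀ x y, w x * p x y = w y * p y x) ∧
      (∀ x0 : ℤ × ℤ, ∃ (Ω : Type) (_ : MeasurableSpace Ω) (μ : Measure Ω)
        (X : ℕ → Ω → ℤ × ℤ), IsProbabilityMeasure μ ∧ IsMarkovChain μ X p x0) ∧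
      (∀ (x0 : ℤ × ℤ) (Ω : Type) [MeasurableSpace Ω] (μ : Measure Ω) (X : ℕ → Ω → ℤ × ℤ),
        IsProbabilityMeasure μ → IsMarkovChain μ X p x0 →
        (∀ᵐ ω ∂μ, ∀ y, {k | X k ω = y}.Finite) ∧
        0 < μ {ω | ∀ x y, Nbr x y → ∃ k, X k ω = x ∧ X (k + 1) ω = y}) := by
  open Pool.Agent.R812.TC in
  exact
    have hcap0 := piece_cap0 piece_max piece_uu piece_en piece_flux piece_flux0 piece_cut
    have hcap2 := piece_cap2 piece_max piece_uu piece_en piece_flux piece_flux0 piece_cut
    have hcap3 := piece_cap3 piece_max piece_uu piece_en piece_flux piece_flux0 piece_cut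
    asm_final piece_P hcap0 hcap2 hcap3
      (piece_num (piece_cond piece_P piece_max piece_uu piece_en piece_flux piece_flux0 piece_line)
        hcap0 hcap2 hcap3)
      piece_nb (piece_link piece_P piece_uu)
      (piece_cover piece_P piece_max piece_dir piece_uu piece_en piece_flux)
      (piece_path piece_P piece_line) (piece_time piece_P) piece_design (piece_trans1 piece_line)
      (piece_trans2 piece_P piece_max piece_dir piece_en) (piece_trans3 piece_P)
      (piece_meas piece_P) (piece_exist piece_P)

end Pool.Agent.Results.MP_e14847_pr.TransientCrossesAll
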